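import Pool.Agent.Results.MP_e07dae_nt.AlmostAllBases
import Pool.Agent.Results.MP_e07dae_nt.SquareRootBases
import Pool.Agent.X174.WinQ

/-!
# The Lang-Waldschmidt inequality for ALL bases in cubes and all exponents up to a power of the bases

Let `n ≥ 1`, `η ≥ 0`. For every sequence `v ≥ 1` of exponent of convergence at most `τ` (for `v_i = (i + 1) ^ a` this is
`1 / a`, for `v_i = b ^ i` it is `0`) and every `ρ < 1` there is a set `E ⊂ ℝ^n` of Hausdorff dimension at most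
`(min (n - 1, n / 2) + n η + τ) / (1 - ρ)` such that for each `x` outside `E`, for all but finitely many `i`: for ALL tuples
`a` of positive integers in the cube with centre `x v_i` and side `2 v_i ^ ρ` and ALL tuples `b` of nonzero integers of
absolute value at most `v_i ^ η` the Lang-Waldschmidt inequality `|P(a, b) - 1| ≥ max |b_j| / (8 H(a, b))` holds; in
particular `P(a, b) ≠ 1`. The numbers of exceptions are from the starting results `AlmostAllBases` (`n ≤ 2`) and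
`SquareRootBases` (`n ≥ 2`).
-/

set_option autoImplicit false

open Finset

namespace Pool.Agent.Results.MP_e07dae_nt.BasesInCubes

open AlmostAllBases (P H maxExp Exceptional)

/-- the exponent of convergence of the sequence `v` is at most `τ` -/
def ExpLe (v : ℕ → ℝ) (τ : ℝ) : Prop := ∀ t : ℝ, τ < t → Summable (fun n : ℕ => (v n) ^ (-t))

lemma count_one (n : ℕ) (hn : 1 ≤ n) {η : ℝ} (hη : 0 ≤ η) {T : ℝ} (hT : 1 ≤ T) :
    (Exceptional n ⌊T⌋₊ ⌊T ^ η⌋₊ 0).Finite ∧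
      ((Exceptional n ⌊T⌋₊ ⌊T ^ η⌋₊ 0).ncard : ℝ) ≤ 2 ^ n * T ^ ((n : ℝ) - 1 + n * η) := by
  have hT0 : 0 < T := by linarith
  obtain ⟨h1, h2⟩ := AlmostAllBases.result n ⌊T⌋₊ ⌊T ^ η⌋₊ hn 0 le_rfl
  refine ⟨h1, ?_⟩
  have h3 : ((⌊T⌋₊ : ℕ) : ℝ) ≤ T := Nat.floor_le hT0.le
  have h4 : ((⌊T ^ η⌋₊ : ℕ) : ℝ) ≤ T ^ η := Nat.floor_le (by positivity)
  calc ((Exceptional n ⌊T⌋₊ ⌊T ^ η⌋₊ 0).ncard : ℝ)
      ≤ (((2 * ⌊T ^ η⌋₊) ^ n * ⌊T⌋₊ ^ (n - 1) : ℕ) : ℝ) := by exact_mod_cast h2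
    _ = (2 * ((⌊T ^ η⌋₊ : ℕ) : ℝ)) ^ n * ((⌊T⌋₊ : ℕ) : ℝ) ^ (n - 1) := by push_cast; ring
    _ ≤ (2 * T ^ η) ^ n * T ^ (n - 1) := by gcongr
    _ = 2 ^ n * (T ^ ((n : ℝ) - 1) * T ^ ((n : ℝ) * η)) := by
        have h5 : T ^ (n - 1) = T ^ ((n : ℝ) - 1) := by
          rw [← Real.rpow_natCast T (n - 1), Nat.cast_sub hn, Nat.cast_one]
        have h6 : (T ^ η) ^ n = T ^ ((n : ℝ) * η) := by
          rw [← Real.rpow_natCast (T ^ η) n, ← Real.rpow_mul hT0.le, mul_comm η]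
        rw [mul_pow, h5, h6]
        ring
    _ = 2 ^ n * T ^ ((n : ℝ) - 1 + n * η) := by rw [← Real.rpow_add hT0]

lemma count_two (n : ℕ) (hn : 1 ≤ n) {η : ℝ} (hη : 0 ≤ η) {ε : ℝ} (hε : 0 < ε) :
    ∃ C : ℝ, ∀ T : ℝ, 1 ≤ T →
      ((Exceptional n ⌊T⌋₊ ⌊T ^ η⌋₊ 0).ncard : ℝ) ≤ C * T ^ ((n : ℝ) / 2 + n * η + ε) := by
  classical
  have hn0 : (0 : ℝ) < n := by exact_mod_cast hn
  obtain ⟨C, hC, h⟩ := SquareRootBases.result n hn (ε / n) (by positivity)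
  refine ⟨C * 2 ^ n, fun T hT => ?_⟩
  have hT0 : 0 < T := by linarith
  have hfl : 1 ≤ ⌊T⌋₊ := Nat.le_floor (by exact_mod_cast hT)
  set B : ℕ := ⌊T ^ η⌋₊ with hB
  set Bs : Finset (Fin n → ℤ) := Fintype.piFinset fun _ => (Icc (-(B : ℤ)) B).erase 0 with hBs
  have hBcard : Bs.card = (2 * B) ^ n := by
    rw [hBs, Fintype.card_piFinset, prod_const, card_univ, Fintype.card_fin]
    congr 1
    rw [card_erase_of_mem (by simp), Int.card_Icc]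
    omega
  have hBne : ∀ b ∈ Bs, ∀ i, b i ≠ 0 := by
    intro b hb i
    rw [hBs, Fintype.mem_piFinset] at hb
    exact (mem_erase.1 (hb i)).1
  obtain ⟨h1, h2⟩ := h (⌊T⌋₊ ^ n) (Nat.one_le_pow _ _ hfl) 0 le_rfl Bs hBne
  have hsub : Exceptional n ⌊T⌋₊ B 0 ⊆ SquareRootBases.Exceptional (⌊T⌋₊ ^ n) 0 Bs := by
    rintro a ⟨ha, b, hb, hab⟩
    refine ⟨fun i => (ha i).1, ?_, b, ?_, ?_⟩
    · calc ∏ i, a i ≤ ∏ _i : Fin n, ⌊T⌋₊ := prod_le_prod' fun i _ => (ha i).2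
        _ = ⌊T⌋₊ ^ n := by rw [prod_const, card_univ, Fintype.card_fin]
    · rw [hBs, Fintype.mem_piFinset]
      intro i
      rw [mem_erase, mem_Icc]
      have := hb i
      refine ⟨this.1, ?_, ?_⟩ <;> omega
    · have h3 : |P a b - 1| < 1 / 2 * (maxExp b : ℝ) / (H a b : ℝ) ^ (1 + (0 : ℝ)) := by
        refine lt_of_lt_of_le hab ?_
        have h4 : (0 : ℝ) ≤ (H a b : ℝ) ^ (1 + (0 : ℝ)) := by positivity
        apply div_le_div_of_nonneg_right _ h4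
        apply mul_le_mul_of_nonneg_right (by norm_num) (Nat.cast_nonneg _)
      exact h3
  have h3 : ((⌊T⌋₊ : ℕ) : ℝ) ≤ T := Nat.floor_le hT0.le
  have h4 : (B : ℝ) ≤ T ^ η := Nat.floor_le (by positivity)
  calc ((Exceptional n ⌊T⌋₊ B 0).ncard : ℝ)
      ≤ ((SquareRootBases.Exceptional (⌊T⌋₊ ^ n) 0 Bs).ncard : ℝ) := by
        exact_mod_cast Set.ncard_le_ncard hsub h1
    _ ≤ C * (Bs.card : ℝ) * ((⌊T⌋₊ ^ n : ℕ) : ℝ) ^ ((1 : ℝ) / 2 + ε / n) := h2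
    _ = C * (2 * (B : ℝ)) ^ n * (((⌊T⌋₊ : ℕ) : ℝ) ^ n) ^ ((1 : ℝ) / 2 + ε / n) := by
        rw [hBcard]
        push_cast
        ring
    _ ≤ C * (2 * T ^ η) ^ n * (T ^ n) ^ ((1 : ℝ) / 2 + ε / n) := by gcongr
    _ = C * 2 ^ n * (T ^ ((n : ℝ) * η) * T ^ ((n : ℝ) / 2 + ε)) := by
        have h6 : (T ^ η) ^ n = T ^ ((n : ℝ) * η) := by
          rw [← Real.rpow_natCast (T ^ η) n, ← Real.rpow_mul hT0.le, mul_comm η]
        have h7 : (T ^ n) ^ ((1 : ℝ) / 2 + ε / n) = T ^ ((n : ℝ) / 2 + ε) := by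
          rw [← Real.rpow_natCast T n, ← Real.rpow_mul hT0.le]
          congr 1
          field_simp
        rw [mul_pow, h6, h7]
        ring
    _ = C * 2 ^ n * T ^ ((n : ℝ) / 2 + n * η + ε) := by
        rw [← Real.rpow_add hT0]
        congr 2
        ring

/-- **Theorem.** Let `n ≥ 1` and `η ≥ 0`. For every sequence `v ≥ 1` of exponent of convergence at most `τ ≥ 0` and every
`ρ < 1` there is a set `E ⊂ ℝ^n` of Hausdorff dimension at most `(min (n - 1, n / 2) + n η + τ) / (1 - ρ)` such that for each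
`x` outside `E`, for all but finitely many `i`, for ALL `a ∈ ℕ^n`, `a_j ≥ 1`, with `|a_j - x_j v_i| ≤ v_i ^ ρ` and ALL
`b ∈ ℤ^n` with `b_j ≠ 0`, `|b_j| ≤ v_i ^ η`: `|P(a, b) - 1| ≥ max |b_j| / (8 H(a, b))`, where `P(a, b) = ∏ a_j ^ b_j`,
`H(a, b) = ∏ |b_j| a_j`. The sequences `v_i = (i + 1) ^ a` and `v_i = b ^ i` have exponent of convergence at most `1 / a`
and `0`. -/
theorem result :
    (∀ (n : ℕ), 1 ≤ n → ∀ η : ℝ, 0 ≤ η → ∀ (v : ℕ → ℝ) (τ ρ : ℝ), (∀ i, 1 ≤ v i) → 0 ≤ τ → ExpLe v τ → ρ < 1 →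
      ∃ E : Set (Fin n → ℝ),
        dimH E ≤ ENNReal.ofReal ((min ((n : ℝ) - 1) ((n : ℝ) / 2) + n * η + τ) / (1 - ρ)) ∧
        ∀ x : Fin n → ℝ, x ∉ E → ∃ i₀ : ℕ, ∀ i : ℕ, i₀ ≤ i →
          ∀ a : Fin n → ℕ, (∀ j, 1 ≤ a j) → (∀ j, |(a j : ℝ) - x j * v i| ≤ (v i) ^ ρ) →
            ∀ b : Fin n → ℤ, (∀ j, b j ≠ 0 ∧ |(b j : ℝ)| ≤ (v i) ^ η) →
              1 / 8 * (maxExp b : ℝ) / (H a b : ℝ) ≤ |P a b - 1| ∧ P a b ≠ 1) ∧
    (∀ a : ℝ, 0 < a → ExpLe (fun n : ℕ => ((n : ℝ) + 1) ^ a) (1 / a)) ∧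
    (∀ b : ℝ, 1 < b → ExpLe (fun n : ℕ => b ^ n) 0) := by
  classical
  refine ⟨fun n hn η hη v τ ρ hv hτ hE hρ => ?_,
    fun κ hκ => Pool.Agent.Y854.GM.expLe_pow κ hκ, fun b hb => Pool.Agent.Y854.GM.expLe_geom b hb⟩
  have hn1 : (1 : ℝ) ≤ n := by exact_mod_cast hn
  have hmin : 0 ≤ min ((n : ℝ) - 1) ((n : ℝ) / 2) := le_min (by linarith) (by linarith)
  have hs : 0 ≤ min ((n : ℝ) - 1) ((n : ℝ) / 2) + n * η := by positivity
  obtain ⟨E, hE1, hE2⟩ := Pool.Agent.X174.winFamE (κ := Fin n) (Q := Fin n → ℕ)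
    (fun a l => (a l : ℝ)) (fun T => Exceptional n ⌊T⌋₊ ⌊T ^ η⌋₊ 0)
    (s := min ((n : ℝ) - 1) ((n : ℝ) / 2) + n * η) hs
    (fun ε hε => by
      rcases le_total ((n : ℝ) - 1) ((n : ℝ) / 2) with hle | hle
      · refine ⟨2 ^ n, fun T hT => ?_⟩
        obtain ⟨h1, h2⟩ := count_one n hn hη hT
        refine ⟨h1, h2.trans ?_⟩
        rw [min_eq_left hle]
        apply mul_le_mul_of_nonneg_left _ (by positivity)
        exact Real.rpow_le_rpow_of_exponent_le hT (by linarith)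
      · obtain ⟨C, hC⟩ := count_two n hn hη hε
        refine ⟨C, fun T hT => ⟨(count_one n hn hη hT).1, ?_⟩⟩
        rw [min_eq_right hle]
        exact hC T hT)
    hv hτ hE hρ
  refine ⟨E, hE1, fun x hx => ?_⟩
  obtain ⟨R, hR, hRc⟩ := Pool.Agent.X174.le_of_cube x
  obtain ⟨i₀, hi₀⟩ := hE2 x hx R hR
  have hR1 : (1 : ℝ) ≤ R := by exact_mod_cast hR
  refine ⟨i₀, fun i hi a ha hax b hb => ?_⟩
  have hvi : 1 ≤ v i := hv i
  have hmain : 1 / 8 * (maxExp b : ℝ) / (H a b : ℝ) ≤ |P a b - 1| := by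
    by_contra hcon
    push Not at hcon
    have h3 := hRc (fun l => (a l : ℝ)) (v i) ρ hvi hρ hax
    refine hi₀ i hi a hax ⟨fun j => ⟨ha j, Nat.le_floor ?_⟩, b, fun j => ⟨(hb j).1, Nat.le_floor ?_⟩, ?_⟩
    · have := h3 j
      rwa [abs_of_nonneg (Nat.cast_nonneg _)] at this
    · rw [Nat.cast_natAbs, Int.cast_abs]
      refine (hb j).2.trans ?_
      exact Real.rpow_le_rpow (by linarith) (by nlinarith) hη
    · rw [add_zero, Real.rpow_one]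
      exact hcon
  refine ⟨hmain, fun hP => ?_⟩
  rw [hP, sub_self, abs_zero] at hmain
  have j0 : Fin n := ⟨0, by omega⟩
  have h4 : 0 < maxExp b := by
    refine lt_of_lt_of_le (Int.natAbs_pos.2 (hb j0).1) ?_
    exact Finset.le_sup (f := fun j => (b j).natAbs) (mem_univ j0)
  have h5 : 0 < H a b := prod_pos fun j _ => Nat.mul_pos (Int.natAbs_pos.2 (hb j).1) (ha j)
  have h6 : (0 : ℝ) < maxExp b := by exact_mod_cast h4
  have h7 : (0 : ℝ) < H a b := by exact_mod_cast h5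
  have h8 : 0 < 1 / 8 * (maxExp b : ℝ) / (H a b : ℝ) := by positivity
  linarith

end Pool.Agent.Results.MP_e07dae_nt.BasesInCubes
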