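import Pool.Agent.Results.MP_e07dae_nt.RealPowers
import Pool.Agent.X283.DA.Pack

/-!
# The Lang-Waldschmidt inequality for all bases whose product is the denominator of a good approximation

Let `n ≥ 1`, `σ ≥ 0` and `s = 1/2 + n σ`. Let `θ, y ∈ ℝ ^ d`, `θ_i ≥ 0`, `θ_1 + ... + θ_d > s`. For almost all `x ∈ ℝ ^ d`,
for all large `q` such that `q x_i` is within `q ^ (-θ_i)` of `y_i` modulo `1` for all `i`, the inequality
`|P(a, b) - 1| ≥ (1/2) max |b_j| / H(a, b)` (no loss in the exponent) holds for ALL tuples `a` of `n` positive integers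
with product `q` and ALL tuples `b` of nonzero integers with `|b_j| ≤ q ^ σ`. For `d = 1` the exceptional `x` form a set of
Hausdorff dimension at most `(1 + s) / (1 + θ)`.
-/

set_option autoImplicit false

namespace Pool.Agent.Results.MP_e07dae_nt.Denominators

open Finset
open Pool.Agent.X283.DA (GoodAtDenominators GoodAtApproximations Sparse sparse_of_nat pack)
open RealPowers (P H maxExp)

/-- `|P(a, b) - 1| ≥ (1/2) max |b_j| / H(a, b)` for all tuples `a` of `n` positive integers with product `q` and all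
tuples `b` of nonzero integers with `|b_j| ≤ q ^ σ` -/
def HoldsAt (n : ℕ) (σ : ℝ) (q : ℕ) : Prop :=
  ∀ a : Fin n → ℕ, (∀ i, 1 ≤ a i) → ∏ i, a i = q →
    ∀ b : Fin n → ℤ, (∀ i, b i ≠ 0) → (∀ i, |(b i : ℝ)| ≤ (q : ℝ) ^ σ) →
      1 / 2 * (maxExp b : ℝ) / (H a b : ℝ) ≤ |P a b - 1|

theorem sparse (n : ℕ) (hn : 1 ≤ n) (σ : ℝ) (hσ : 0 ≤ σ) :
    Sparse {q : ℕ | ¬ HoldsAt n σ q} (1 / 2 + n * σ) := by
  refine sparse_of_nat (by positivity) fun ε hε => ?_
  obtain ⟨C, hC⟩ := RealPowers.count n hn σ hσ ε hε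
  refine ⟨C, fun X hX => ?_⟩
  obtain ⟨hfin, hcard⟩ := hC X (by exact_mod_cast hX)
  have hsub : {q : ℕ | q ∈ {q : ℕ | ¬ HoldsAt n σ q} ∧ q ≤ X} ⊆ (fun a : Fin n → ℕ => ∏ j, a j) ''
      {a | a ∈ RealPowers.Exc n σ ∧ ((∏ j, a j : ℕ) : ℝ) ≤ X} := by
    rintro q ⟨h1, h2⟩
    unfold HoldsAt at h1
    simp only [Set.mem_setOf_eq, not_forall, not_le] at h1
    obtain ⟨a, ha, haq, b, hb0, hb1, h3⟩ := h1
    refine ⟨a, ⟨⟨ha, b, hb0, ?_, h3⟩, ?_⟩, haq⟩
    · intro i
      rw [haq]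
      exact hb1 i
    · rw [haq]
      exact_mod_cast h2
  have h1 := (Set.ncard_le_ncard hsub (hfin.image _)).trans (Set.ncard_image_le hfin)
  exact (Nat.cast_le.2 h1).trans hcard

/-- **Theorem.** Let `n ≥ 1` and `σ ≥ 0`. The property `HoldsAt n σ` of natural numbers holds for the denominators of
good simultaneous and of good inhomogeneous rational approximations, with the exponent `1 / 2 + n σ`. -/
theorem result (n : ℕ) (hn : 1 ≤ n) (σ : ℝ) (hσ : 0 ≤ σ) :
    GoodAtDenominators (HoldsAt n σ) (1 / 2 + n * σ) ∧ GoodAtApproximations (HoldsAt n σ) (1 / 2 + n * σ) :=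
  (pack _ (by positivity) (sparse n hn σ hσ)).2.2

end Pool.Agent.Results.MP_e07dae_nt.Denominators
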