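import Mathlib
import Pool.Agent.X142.DN.Forms

/-!
# The Lang-Waldschmidt problem: few bases for every coefficient vector

For every vector of real coefficients, however large, the linear form in the logarithms of positive
rational numbers of height at most `X` is polynomially small only at few tuples, or all the tuples
at which it is small satisfy one multiplicative relation of bounded height.  For every vector of
exponents at most `C X^(n + ε)` multiplicatively independent `(n + 2)`-tuples of integers in `[1, X]`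
satisfy `|P(a, b) - 1| ≤ X^{-w}`; for two bases independence is not needed.
-/

set_option autoImplicit false

namespace Pool.Agent.Results.MP_e07dae_nt.EveryCoefficientVector

open Finset

/-- `r` is positive and its numerator and denominator are at most `X`. -/
def Height (X : ℕ) (r : ℚ) : Prop := 0 < r ∧ r.num ≤ X ∧ r.den ≤ X

/-- `|∑ β_j log a_j| ≤ max |β_j| X^{-w}` (`‖β‖` is the maximum of the `|β_j|`). -/
def Small {N : ℕ} (X w : ℕ) (β : Fin N → ℝ) (a : Fin N → ℚ) : Prop :=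
  |∑ j, β j * Real.log (a j)| ≤ ‖β‖ * ((X : ℝ) ^ w)⁻¹

/-- `P(a, b) = a_1 ^ b_1 ⋯ a_n ^ b_n`. -/
noncomputable def P {n : ℕ} (a : Fin n → ℕ) (b : Fin n → ℤ) : ℝ := ∏ j, (a j : ℝ) ^ (b j)

/-- `H(a, b) = |b_1 ⋯ b_n a_1 ⋯ a_n|`. -/
def H {n : ℕ} (a : Fin n → ℕ) (b : Fin n → ℤ) : ℕ := ∏ j, ((b j).natAbs * a j)

/-- `max |b_j|`. -/
def maxExp {n : ℕ} (b : Fin n → ℤ) : ℕ := Finset.univ.sup fun j => (b j).natAbs

/-- `P(a, b) ≠ 1` and, if there are more than two bases, they are multiplicatively independent. -/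
def Allowed {n : ℕ} (a : Fin (n + 2) → ℕ) (b : Fin (n + 2) → ℤ) : Prop :=
  P a b ≠ 1 ∧ (1 ≤ n → ∀ m : Fin (n + 2) → ℤ, P a m = 1 → m = 0)

/-- The allowed tuples of integers in `[1, X]` with `|P(a, b) - 1| ≤ X^{-w}`. -/
def near {n : ℕ} (b : Fin (n + 2) → ℤ) (w : ℝ) (X : ℕ) : Set (Fin (n + 2) → ℕ) :=
  {a | (∀ j, 1 ≤ a j ∧ a j ≤ X) ∧ Allowed a b ∧ |P a b - 1| ≤ (X : ℝ) ^ (-w)}

/-- The allowed tuples of integers in `[1, X]` for which the inequality of the problem, with `η` in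
place of `ε` and the constant `c`, fails. -/
def fails {n : ℕ} (b : Fin (n + 2) → ℤ) (η c : ℝ) (X : ℕ) : Set (Fin (n + 2) → ℕ) :=
  {a | (∀ j, 1 ≤ a j ∧ a j ≤ X) ∧ Allowed a b ∧
    |P a b - 1| < c * maxExp b / (H a b : ℝ) ^ (1 + η)}

lemma abs_log_le_two {x δ : ℝ} (hδ : δ ≤ 1 / 2) (h : |x - 1| ≤ δ) : |Real.log x| ≤ 2 * δ := by
  obtain ⟨h1, h2⟩ := abs_le.1 h
  have hx : 1 / 2 ≤ x := by linarith
  have hxp : 0 < x := by linarith
  have h3 := Real.log_le_sub_one_of_pos hxp
  have h4 := Real.one_sub_inv_le_log_of_pos hxp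
  have hδ0 : 0 ≤ δ := (abs_nonneg _).trans h
  have h5 : -(2 * δ) ≤ 1 - x⁻¹ := by
    have h6 : x⁻¹ ≤ 1 + 2 * δ := by
      rw [inv_le_iff_one_le_mul₀ hxp]
      nlinarith
    linarith
  rw [abs_le]
  constructor <;> linarith

lemma log_P {n : ℕ} (a : Fin n → ℕ) (b : Fin n → ℤ) (ha : ∀ j, 1 ≤ a j) :
    Real.log (P a b) = ∑ j, (b j : ℝ) * Real.log (a j) := by
  unfold P
  rw [Real.log_prod]
  · exact Finset.sum_congr rfl fun j _ => by rw [Real.log_zpow]
  · intro j _
    have : (0 : ℝ) < a j := by exact_mod_cast ha j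
    positivity

lemma P_pos {n : ℕ} (a : Fin n → ℕ) (b : Fin n → ℤ) (ha : ∀ j, 1 ≤ a j) : 0 < P a b := by
  unfold P
  refine Finset.prod_pos fun j _ => ?_
  have : (0 : ℝ) < a j := by exact_mod_cast ha j
  positivity

/-- lower bound for two dependent bases -/
lemma two_dependent (a : Fin 2 → ℕ) (b m : Fin 2 → ℤ) (ha : ∀ j, 1 ≤ a j) (hP : P a b ≠ 1)
    (hm : m ≠ 0) {M : ℕ} (hM : ∀ j, |m j| ≤ M) (hrel : ∑ j, (m j : ℝ) * Real.log (a j) = 0) :
    1 / (2 * ((M : ℝ) + 1)) ≤ |Real.log (P a b)| := by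
  have hlog : Real.log (P a b) ≠ 0 := by
    intro h
    exact hP (Real.eq_one_of_pos_of_log_eq_zero (P_pos a b ha) h)
  have hL : ∀ j, Real.log (a j : ℝ) ≠ 0 → 1 / 2 ≤ |Real.log (a j : ℝ)| := by
    intro j hj
    have h2 : 2 ≤ a j := by
      by_contra hcon
      have h3 : a j = 1 := by have := ha j; omega
      rw [h3] at hj
      simp at hj
    have h3 : (2 : ℝ) ≤ a j := by exact_mod_cast h2
    have h4 : Real.log 2 ≤ Real.log (a j) := Real.log_le_log (by norm_num) h3
    have h5 := Real.log_two_gt_d9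
    exact (by linarith : (1 : ℝ) / 2 ≤ Real.log (a j)).trans (le_abs_self _)
  have hM0 : (0 : ℝ) ≤ M := Nat.cast_nonneg M
  have hhalf : 1 / (2 * ((M : ℝ) + 1)) ≤ 1 / 2 := by
    apply one_div_le_one_div_of_le (by norm_num)
    linarith
  rw [log_P a b ha, Fin.sum_univ_two] at hlog ⊢
  rw [Fin.sum_univ_two] at hrel
  have hone : ∀ z : ℤ, z ≠ 0 → (1 : ℝ) ≤ |(z : ℝ)| := by
    intro z hz
    have : (1 : ℤ) ≤ |z| := Int.one_le_abs hz
    exact_mod_cast this
  by_cases h1 : m 1 = 0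
  · have h0 : m 0 ≠ 0 := by
      intro h0
      apply hm
      funext j
      fin_cases j
      · exact h0
      · exact h1
    rw [h1] at hrel
    simp only [Int.cast_zero, zero_mul, add_zero, mul_eq_zero, Int.cast_eq_zero, h0, false_or] at hrel
    rw [hrel, mul_zero, zero_add] at hlog ⊢
    have h2 := hL 1 (right_ne_zero_of_mul hlog)
    have h3 : b 1 ≠ 0 := by
      have := left_ne_zero_of_mul hlog
      exact_mod_cast this
    rw [abs_mul]
    have h4 := hone _ h3
    nlinarith [abs_nonneg (Real.log (a 1 : ℝ))]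
  · have hm1 : (m 1 : ℝ) ≠ 0 := by exact_mod_cast h1
    have e1 : (m 1 : ℝ) * ((b 0 : ℝ) * Real.log (a 0) + (b 1 : ℝ) * Real.log (a 1)) =
        ((b 0 * m 1 - b 1 * m 0 : ℤ) : ℝ) * Real.log (a 0) := by
      push_cast
      linear_combination (b 1 : ℝ) * hrel
    have e2 : ((b 0 * m 1 - b 1 * m 0 : ℤ) : ℝ) * Real.log (a 0) ≠ 0 := by
      rw [← e1]
      exact mul_ne_zero hm1 hlog
    have h2 := hL 0 (right_ne_zero_of_mul e2)
    have h3 : b 0 * m 1 - b 1 * m 0 ≠ 0 := by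
      have := left_ne_zero_of_mul e2
      exact_mod_cast this
    have h4 := hone _ h3
    have e3 : |(m 1 : ℝ)| * |(b 0 : ℝ) * Real.log (a 0) + (b 1 : ℝ) * Real.log (a 1)| =
        |((b 0 * m 1 - b 1 * m 0 : ℤ) : ℝ)| * |Real.log (a 0)| := by
      rw [← abs_mul, ← abs_mul, e1]
    have h5 : |(m 1 : ℝ)| ≤ M + 1 := by
      have h6 : |(m 1 : ℝ)| ≤ M := by exact_mod_cast hM 1
      linarith
    set t := |(b 0 : ℝ) * Real.log (a 0) + (b 1 : ℝ) * Real.log (a 1)| with ht
    have ht0 : 0 ≤ t := abs_nonneg _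
    have h6 : 1 / 2 ≤ ((M : ℝ) + 1) * t := by
      calc (1 : ℝ) / 2 ≤ |((b 0 * m 1 - b 1 * m 0 : ℤ) : ℝ)| * |Real.log (a 0)| := by nlinarith
        _ = |(m 1 : ℝ)| * t := e3.symm
        _ ≤ ((M : ℝ) + 1) * t := mul_le_mul_of_nonneg_right h5 ht0
    rw [div_le_iff₀ (by positivity)]
    linarith

/-- **Main result.** Let `n ≥ 0` and `ε > 0`.
(1) There are `M, w, C` such that for all `X ≥ 1` and all `β ∈ ℝ^(n + 2)`, `β ≠ 0`: either, for every
finite set `A` of positive rational numbers of height at most `X`, at most `C X^ε |A|^n` tuples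
`a ∈ A^(n + 2)` satisfy `|∑ β_j log a_j| ≤ max |β_j| X^{-w}`; or there are integers `m_j`, not all
zero, `|m_j| ≤ M`, such that `∏ a_j ^ m_j = 1` for all tuples `a` of positive rational numbers of
height at most `X` with `|∑ β_j log a_j| ≤ max |β_j| X^{-w}`.
(2) There are `w, C` such that for all `X ≥ 1` and all non-zero integers `b_1, …, b_(n + 2)` at most
`C X^(n + ε)` allowed tuples `a` of integers in `[1, X]` satisfy `|P(a, b) - 1| ≤ X^{-w}`.
(3) For all `η, c > 0` there are `L, C` such that for all `X ≥ 1` and all non-zero integers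
`b_1, …, b_(n + 2)` with `max |b_j| ≥ X^L` the inequality of the problem, with `η` in place of `ε` and
the constant `c`, fails for at most `C X^(n + ε)` allowed tuples `a` of integers in `[1, X]`. -/
theorem result (n : ℕ) (ε : ℝ) (hε : 0 < ε) :
    (∃ (M w : ℕ) (C : ℝ), ∀ X : ℕ, 1 ≤ X → ∀ β : Fin (n + 2) → ℝ, β ≠ 0 →
      (∀ A : Finset ℚ, (∀ r ∈ A, Height X r) →
        (({a : Fin (n + 2) → ℚ | (∀ j, a j ∈ A) ∧ Small X w β a}.ncard : ℕ) : ℝ) ≤
          C * (X : ℝ) ^ ε * (A.card : ℝ) ^ n) ∨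
      (∃ m : Fin (n + 2) → ℤ, m ≠ 0 ∧ (∀ j, |m j| ≤ M) ∧ ∀ a : Fin (n + 2) → ℚ,
        (∀ j, Height X (a j)) → Small X w β a → ∏ j, (a j) ^ (m j) = 1)) ∧
    (∃ w C : ℝ, ∀ X : ℕ, 1 ≤ X → ∀ b : Fin (n + 2) → ℤ, (∀ j, b j ≠ 0) →
      (((near b w X).ncard : ℕ) : ℝ) ≤ C * (X : ℝ) ^ ((n : ℝ) + ε)) ∧
    (∀ η c : ℝ, 0 < η → 0 < c → ∃ L C : ℝ, ∀ X : ℕ, 1 ≤ X → ∀ b : Fin (n + 2) → ℤ,
      (∀ j, b j ≠ 0) → (X : ℝ) ^ L ≤ maxExp b →
        (((fails b η c X).ncard : ℕ) : ℝ) ≤ C * (X : ℝ) ^ ((n : ℝ) + ε)) := by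
  classical
  obtain ⟨M, w, C, hC, h⟩ := Pool.Agent.X142.DN.dichotomy n ε hε
  have hbox : ∀ (X : ℕ) (s : Set (Fin (n + 2) → ℕ)), (∀ a ∈ s, ∀ j, 1 ≤ a j ∧ a j ≤ X) →
      s.Finite ∧ s.ncard ≤ X ^ (n + 2) := by
    intro X s hs
    have h1 : s ⊆ ((Fintype.piFinset fun _ : Fin (n + 2) => Finset.Icc 1 X :
        Finset (Fin (n + 2) → ℕ)) : Set (Fin (n + 2) → ℕ)) := by
      intro a ha
      rw [Finset.mem_coe, Fintype.mem_piFinset]
      exact fun j => Finset.mem_Icc.2 (hs a ha j)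
    refine ⟨(Finset.finite_toSet _).subset h1, ?_⟩
    refine (Set.ncard_le_ncard h1 (Finset.finite_toSet _)).trans ?_
    rw [Set.ncard_coe_finset, Fintype.card_piFinset, Finset.prod_const, Finset.card_univ,
      Fintype.card_fin, Nat.card_Icc, Nat.add_sub_cancel]
  -- the second statement
  have hsecond : ∀ X : ℕ, 1 ≤ X → ∀ b : Fin (n + 2) → ℤ, (∀ j, b j ≠ 0) →
      (((near b ((w + 2 : ℕ) : ℝ) X).ncard : ℕ) : ℝ) ≤
        (C + (4 * ((M : ℝ) + 1)) ^ (n + 2)) * (X : ℝ) ^ ((n : ℝ) + ε) := by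
    intro X hX b hb
    have hXr : (1 : ℝ) ≤ X := by exact_mod_cast hX
    have hXp : (0 : ℝ) < X := by linarith
    have hXnε : 1 ≤ (X : ℝ) ^ ((n : ℝ) + ε) := Real.one_le_rpow hXr (by positivity)
    obtain ⟨hfin, htriv⟩ := hbox X (near b ((w + 2 : ℕ) : ℝ) X) (fun a ha => ha.1)
    have hMp : (0 : ℝ) ≤ 4 * ((M : ℝ) + 1) := by positivity
    by_cases hsm : (X : ℝ) ≤ 4 * ((M : ℝ) + 1)
    · have h1 : (((near b ((w + 2 : ℕ) : ℝ) X).ncard : ℕ) : ℝ) ≤ (X : ℝ) ^ (n + 2) := by
        exact_mod_cast htriv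
      have h2 : (X : ℝ) ^ (n + 2) ≤ (4 * ((M : ℝ) + 1)) ^ (n + 2) :=
        pow_le_pow_left₀ hXp.le hsm _
      have h3 : 0 ≤ (4 * ((M : ℝ) + 1)) ^ (n + 2) := by positivity
      nlinarith
    push Not at hsm
    have hX2 : (2 : ℝ) ≤ X := by
      have : (0 : ℝ) ≤ M := Nat.cast_nonneg M
      linarith
    set β : Fin (n + 2) → ℝ := fun j => (b j : ℝ) with hβ
    have hβ0 : β ≠ 0 := by
      intro h0
      have h1 : (b 0 : ℝ) = 0 := congrFun h0 0
      exact hb 0 (by exact_mod_cast h1)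
    have hnorm : 1 ≤ ‖β‖ := by
      refine le_trans ?_ (norm_le_pi_norm β 0)
      rw [hβ]
      simp only [Real.norm_eq_abs]
      have : (1 : ℤ) ≤ |b 0| := Int.one_le_abs (hb 0)
      exact_mod_cast this
    have hlogle : ∀ a ∈ near b ((w + 2 : ℕ) : ℝ) X,
        |Real.log (P a b)| ≤ ((X : ℝ) ^ (w + 1))⁻¹ := by
      intro a ha
      have h1 := ha.2.2
      rw [Real.rpow_neg hXp.le, Real.rpow_natCast] at h1
      have h2 : ((X : ℝ) ^ (w + 2))⁻¹ ≤ 1 / 2 := by
        rw [one_div]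
        apply inv_anti₀ (by norm_num)
        exact hX2.trans (le_self_pow₀ hXr (by omega))
      refine (abs_log_le_two h2 h1).trans ?_
      rw [pow_succ _ (w + 1), mul_inv]
      have h3 : (X : ℝ)⁻¹ ≤ 1 / 2 := by rw [one_div]; exact inv_anti₀ (by norm_num) hX2
      have h4 : 0 < ((X : ℝ) ^ (w + 1))⁻¹ := by positivity
      nlinarith
    have hsmall : ∀ a ∈ near b ((w + 2 : ℕ) : ℝ) X,
        Pool.Agent.X142.DN.Near X w β (fun j => (a j : ℚ)) := by
      intro a ha
      unfold Pool.Agent.X142.DN.Near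
      have h1 := hlogle a ha
      rw [log_P a b (fun j => (ha.1 j).1)] at h1
      have h2 : ∑ j, β j * Real.log (((a j : ℚ)) : ℝ) = ∑ j, (b j : ℝ) * Real.log (a j) := by
        refine Finset.sum_congr rfl fun j _ => ?_
        rw [Rat.cast_natCast]
      rw [h2]
      refine h1.trans ?_
      have h3 : ((X : ℝ) ^ (w + 1))⁻¹ ≤ ((X : ℝ) ^ w)⁻¹ :=
        inv_anti₀ (by positivity) (pow_le_pow_right₀ hXr (by omega))
      have h4 : 0 < ((X : ℝ) ^ w)⁻¹ := by positivity
      nlinarith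
    rcases h X hX β hβ0 with h1 | ⟨m, hm0, hmM, hm⟩
    · set A : Finset ℚ := (Finset.Icc 1 X).image (fun k : ℕ => (k : ℚ)) with hA
      have hcard : A.card = X := by
        rw [hA, Finset.card_image_of_injective _ Nat.cast_injective, Nat.card_Icc,
          Nat.add_sub_cancel]
      have h2 := h1 A (by
          intro r hr
          obtain ⟨k, hk, rfl⟩ := Finset.mem_image.1 hr
          obtain ⟨hk1, hk2⟩ := Finset.mem_Icc.1 hk
          refine ⟨by exact_mod_cast hk1, ?_, ?_⟩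
          · rw [Rat.num_natCast]; exact_mod_cast hk2
          · rw [Rat.den_natCast]; exact hX)
        (hfin.toFinset.image (fun a : Fin (n + 2) → ℕ => fun j => (a j : ℚ))) (by
          intro q hq
          obtain ⟨a, ha, rfl⟩ := Finset.mem_image.1 hq
          have ha' := hfin.mem_toFinset.1 ha
          refine ⟨fun j => ?_, hsmall a ha'⟩
          exact Finset.mem_image.2 ⟨a j, Finset.mem_Icc.2 (ha'.1 j), rfl⟩)
      rw [Finset.card_image_of_injective] at h2
      · rw [hcard] at h2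
        rw [Set.ncard_eq_toFinset_card _ hfin]
        refine h2.trans ?_
        have h3 : (X : ℝ) ^ ((n : ℝ) + ε) = (X : ℝ) ^ n * (X : ℝ) ^ ε := by
          rw [Real.rpow_add hXp, Real.rpow_natCast]
        rw [h3]
        have h4 : 0 ≤ (4 * ((M : ℝ) + 1)) ^ (n + 2) * ((X : ℝ) ^ n * (X : ℝ) ^ ε) := by positivity
        nlinarith
      · intro a a' haa
        funext j
        have := congrFun haa j
        simpa using this
    · have hempty : near b ((w + 2 : ℕ) : ℝ) X = ∅ := by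
        rw [Set.eq_empty_iff_forall_notMem]
        intro a ha
        have h2 := hm (fun j => (a j : ℚ)) (fun j => by
            obtain ⟨hk1, hk2⟩ := ha.1 j
            refine ⟨by exact_mod_cast hk1, ?_, ?_⟩
            · rw [Rat.num_natCast]; exact_mod_cast hk2
            · rw [Rat.den_natCast]; exact hX) (hsmall a ha)
        have h3 : P a m = 1 := by
          have h3 := congrArg (fun q : ℚ => (q : ℝ)) h2
          push_cast at h3
          exact h3
        rcases Nat.eq_zero_or_pos n with hn | hn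
        · subst hn
          have h4 : ∑ j, (m j : ℝ) * Real.log (a j) = 0 := by
            rw [← log_P a m (fun j => (ha.1 j).1), h3, Real.log_one]
          have h5 := two_dependent a b m (fun j => (ha.1 j).1) ha.2.1.1 hm0 hmM h4
          have h6 := h5.trans (hlogle a ha)
          have h7 : ((X : ℝ) ^ (w + 1))⁻¹ ≤ (X : ℝ)⁻¹ :=
            inv_anti₀ hXp (le_self_pow₀ hXr (by omega))
          have h8 : (X : ℝ)⁻¹ < 1 / (2 * ((M : ℝ) + 1)) := by
            rw [← one_div]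
            apply one_div_lt_one_div_of_lt (by positivity)
            have : (0 : ℝ) ≤ M := Nat.cast_nonneg M
            linarith
          linarith
        · exact hm0 (ha.2.1.2 hn m h3)
      rw [hempty, Set.ncard_empty]
      push_cast
      positivity
  refine ⟨⟨M, w, C, ?_⟩, ⟨((w + 2 : ℕ) : ℝ), _, hsecond⟩, ?_⟩
  · intro X hX β hβ
    rcases h X hX β hβ with h1 | h1
    · left
      intro A hA
      have hfin : {a : Fin (n + 2) → ℚ | (∀ j, a j ∈ A) ∧ Small X w β a}.Finite := by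
        refine (Finset.finite_toSet (Fintype.piFinset fun _ : Fin (n + 2) => A)).subset ?_
        intro a ha
        rw [Finset.mem_coe, Fintype.mem_piFinset]
        exact ha.1
      rw [Set.ncard_eq_toFinset_card _ hfin]
      exact h1 A hA _ fun a ha => hfin.mem_toFinset.1 ha
    · exact Or.inr h1
  · intro η c hη hc
    obtain ⟨k, hk⟩ := pow_unbounded_of_one_lt c (by norm_num : (1 : ℝ) < 2)
    refine ⟨((w + 2 + k : ℕ) : ℝ) / η, C + (4 * ((M : ℝ) + 1)) ^ (n + 2), ?_⟩
    intro X hX b hb hB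
    have hXr : (1 : ℝ) ≤ X := by exact_mod_cast hX
    have hXp : (0 : ℝ) < X := by linarith
    have hXnε : 1 ≤ (X : ℝ) ^ ((n : ℝ) + ε) := Real.one_le_rpow hXr (by positivity)
    by_cases hX1 : X = 1
    · -- one tuple only
      obtain ⟨_, htriv⟩ := hbox X (fails b η c X) (fun a ha => ha.1)
      have h1 : (((fails b η c X).ncard : ℕ) : ℝ) ≤ 1 := by
        rw [hX1, one_pow] at htriv
        rw [hX1]
        exact_mod_cast htriv
      have h2 : (1 : ℝ) ≤ (4 * ((M : ℝ) + 1)) ^ (n + 2) := by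
        apply one_le_pow₀
        have : (0 : ℝ) ≤ M := Nat.cast_nonneg M
        linarith
      nlinarith
    have hX2 : (2 : ℝ) ≤ X := by
      have : 2 ≤ X := by omega
      exact_mod_cast this
    refine le_trans ?_ (hsecond X hX b hb)
    have hsub : fails b η c X ⊆ near b ((w + 2 : ℕ) : ℝ) X := by
      rintro a ⟨ha1, ha2, ha3⟩
      refine ⟨ha1, ha2, ha3.le.trans ?_⟩
      -- the height
      have hBle : maxExp b ≤ H a b := by
        have hHpos : 0 < H a b := by
          unfold H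
          refine Finset.prod_pos fun j _ => Nat.mul_pos (Int.natAbs_pos.2 (hb j)) (ha1 j).1
        refine Finset.sup_le fun j _ => ?_
        have h1 : (b j).natAbs ∣ H a b := by
          unfold H
          exact (Dvd.intro _ rfl).trans (Finset.dvd_prod_of_mem
            (fun j => (b j).natAbs * a j) (Finset.mem_univ j))
        exact Nat.le_of_dvd hHpos h1
      have hB1 : (1 : ℝ) ≤ maxExp b := by
        have h1 : (b 0).natAbs ≤ maxExp b :=
          Finset.le_sup (f := fun j => (b j).natAbs) (Finset.mem_univ 0)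
        have h2 : 1 ≤ (b 0).natAbs := Int.natAbs_pos.2 (hb 0)
        exact_mod_cast h2.trans h1
      set B : ℝ := (maxExp b : ℝ) with hBdef
      have hB0 : 0 < B := by linarith
      have hBH : B ≤ (H a b : ℝ) := Nat.cast_le.2 hBle
      have h1 : B ^ (1 + η) ≤ (H a b : ℝ) ^ (1 + η) :=
        Real.rpow_le_rpow hB0.le hBH (by positivity)
      have h2 : c * B / (H a b : ℝ) ^ (1 + η) ≤ c * B / B ^ (1 + η) :=
        div_le_div_of_nonneg_left (by positivity) (by positivity) h1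
      have h3 : c * B / B ^ (1 + η) = c * (B ^ η)⁻¹ := by
        rw [Real.rpow_add hB0, Real.rpow_one]
        field_simp
      have h4 : (X : ℝ) ^ (w + 2 + k) ≤ B ^ η := by
        calc (X : ℝ) ^ (w + 2 + k) = ((X : ℝ) ^ (((w + 2 + k : ℕ) : ℝ) / η)) ^ η := by
              rw [← Real.rpow_mul hXp.le, div_mul_cancel₀ _ hη.ne', Real.rpow_natCast]
          _ ≤ B ^ η := Real.rpow_le_rpow (by positivity) hB hη.le
      rw [Real.rpow_neg hXp.le, Real.rpow_natCast]
      calc c * B / (H a b : ℝ) ^ (1 + η) ≤ c * (B ^ η)⁻¹ := by rw [← h3]; exact h2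
        _ ≤ c * ((X : ℝ) ^ (w + 2 + k))⁻¹ := by gcongr
        _ ≤ (X : ℝ) ^ k * ((X : ℝ) ^ (w + 2 + k))⁻¹ := by
            gcongr
            exact hk.le.trans (pow_le_pow_left₀ (by norm_num) hX2 k)
        _ = ((X : ℝ) ^ (w + 2))⁻¹ := by
            rw [pow_add _ (w + 2) k]
            field_simp
    have hfin := (hbox X (near b ((w + 2 : ℕ) : ℝ) X) (fun a ha => ha.1)).1
    exact_mod_cast Set.ncard_le_ncard hsub hfin

end Pool.Agent.Results.MP_e07dae_nt.EveryCoefficientVector
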