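import Pool.Agent.Results.MP_e07dae_nt.SquareRootBases
import Pool.Agent.X16.NW.D

/-!
# The Lang-Waldschmidt inequality for all bases with product near the powers of a real number

Let `n ≥ 1`, `σ, θ ≥ 0`, `n σ + θ < 1/2`. For almost all real `t > 1`, for all large `k` the inequality
`|P(a, b) - 1| ≥ (1/2) max |b_j| / H(a, b)` (no loss in the exponent) holds for ALL tuples `a` of `n` positive integers
with `|a_1 ⋯ a_n - t ^ k| ≤ t ^ (θ k)` and ALL tuples `b` of nonzero integers with `|b_j| ≤ (a_1 ⋯ a_n) ^ σ`. The same is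
true for `t ^ κ_k` with real exponents such that `κ_k / log k → ∞`, and for the numbers `k ^ t`, for almost all
`t > 1 / (1/2 - n σ - θ)`.

In general let `f_k : I → ℝ` be a family of functions whose logarithmic slopes are locally bounded from below by positive
constants and which are locally bounded from below by sequences with exponent of convergence at most `τ`. Then the
inequality holds for all large `k` and all these `a` and `b` with `|a_1 ⋯ a_n - f_k(t)| ≤ f_k(t) ^ θ`, for all `t ∈ I`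
outside a set of Hausdorff dimension at most `(1/2 + n σ + τ) / (1 - θ)`. The starting result `WindowsWithoutExceptions`
is about the linear families `t v_k`.
-/

set_option autoImplicit false

namespace Pool.Agent.Results.MP_e07dae_nt.RealPowers

open Finset Filter Topology MeasureTheory
open Pool.Agent.X16.NW (ExpLe Expanding LocExpanding)

/-- `P(a, b) = a_1 ^ b_1 ... a_n ^ b_n`. -/
noncomputable def P {n : ℕ} (a : Fin n → ℕ) (b : Fin n → ℤ) : ℝ := ∏ i, (a i : ℝ) ^ b i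

/-- `H(a, b) = |b_1 ... b_n a_1 ... a_n|`. -/
def H {n : ℕ} (a : Fin n → ℕ) (b : Fin n → ℤ) : ℕ := ∏ i, (b i).natAbs * a i

/-- `max |b_j|`. -/
def maxExp {n : ℕ} (b : Fin n → ℤ) : ℕ := univ.sup fun i => (b i).natAbs

/-- the exceptional tuples `a`, for exponents at most `(a_1 ⋯ a_n) ^ σ` -/
def Exc (n : ℕ) (σ : ℝ) : Set (Fin n → ℕ) :=
  {a | (∀ i, 1 ≤ a i) ∧ ∃ b : Fin n → ℤ, (∀ i, b i ≠ 0) ∧ (∀ i, |(b i : ℝ)| ≤ ((∏ j, a j : ℕ) : ℝ) ^ σ) ∧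
    |P a b - 1| < 1 / 2 * (maxExp b : ℝ) / (H a b : ℝ)}

open Classical in
lemma count (n : ℕ) (hn : 1 ≤ n) (σ : ℝ) (hσ : 0 ≤ σ) (ε : ℝ) (hε : 0 < ε) : ∃ K : ℝ, ∀ X : ℝ, 1 ≤ X →
    {a | a ∈ Exc n σ ∧ ((∏ j, a j : ℕ) : ℝ) ≤ X}.Finite ∧
      ({a | a ∈ Exc n σ ∧ ((∏ j, a j : ℕ) : ℝ) ≤ X}.ncard : ℝ) ≤ K * X ^ (1 / 2 + n * σ + ε) := by
  obtain ⟨C, hC0, hC⟩ := SquareRootBases.result n hn ε hε
  refine ⟨C * 3 ^ n, fun X hX => ?_⟩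
  have hX0 : 0 < X := by linarith
  have hN1 : 1 ≤ ⌊X⌋₊ := Nat.le_floor (by exact_mod_cast hX)
  have hNX : ((⌊X⌋₊ : ℕ) : ℝ) ≤ X := Nat.floor_le hX0.le
  set R : ℤ := ⌊X ^ σ⌋ with hR
  have hXσ : 1 ≤ X ^ σ := Real.one_le_rpow hX hσ
  have hR1 : 1 ≤ R := Int.le_floor.2 (by exact_mod_cast hXσ)
  set B : Finset (Fin n → ℤ) := (Fintype.piFinset fun _ => Icc (-R) R).filter (fun b => ∀ i, b i ≠ 0) with hB
  have hB0 : ∀ b ∈ B, ∀ i, b i ≠ 0 := fun b hb => (mem_filter.1 hb).2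
  obtain ⟨hfin, hcard⟩ := hC ⌊X⌋₊ hN1 0 le_rfl B hB0
  have hsub : {a | a ∈ Exc n σ ∧ ((∏ j, a j : ℕ) : ℝ) ≤ X} ⊆ SquareRootBases.Exceptional ⌊X⌋₊ 0 B := by
    rintro a ⟨⟨ha, b, hb0, hb1, hf⟩, haX⟩
    refine ⟨ha, Nat.le_floor haX, b, ?_, ?_⟩
    · rw [hB, mem_filter, Fintype.mem_piFinset]
      refine ⟨fun i => ?_, hb0⟩
      have h1 : |(b i : ℝ)| ≤ X ^ σ :=
        (hb1 i).trans (Real.rpow_le_rpow (Nat.cast_nonneg _) haX hσ)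
      rw [abs_le] at h1
      rw [mem_Icc]
      constructor
      · rw [neg_le]
        apply Int.le_floor.2
        push_cast
        linarith [h1.1]
      · exact Int.le_floor.2 h1.2
    · unfold SquareRootBases.Fails
      rw [add_zero, Real.rpow_one]
      exact hf
  refine ⟨hfin.subset hsub, ?_⟩
  have h1 : ({a | a ∈ Exc n σ ∧ ((∏ j, a j : ℕ) : ℝ) ≤ X}.ncard : ℝ) ≤
      ((SquareRootBases.Exceptional ⌊X⌋₊ 0 B).ncard : ℝ) := by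
    exact_mod_cast Set.ncard_le_ncard hsub hfin
  have h2 : (B.card : ℝ) ≤ 3 ^ n * X ^ (n * σ) := by
    have h3 : B.card ≤ (Fintype.piFinset fun _ : Fin n => Icc (-R) R).card := card_filter_le _ _
    rw [Fintype.card_piFinset, prod_const, card_univ, Fintype.card_fin, Int.card_Icc] at h3
    have h4 : (((R + 1 - -R).toNat : ℕ) : ℝ) ≤ 3 * X ^ σ := by
      have h5 : (((R + 1 - -R).toNat : ℕ) : ℤ) = 2 * R + 1 := by
        rw [Int.toNat_of_nonneg (by linarith)]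
        ring
      have h6 : (((R + 1 - -R).toNat : ℕ) : ℝ) = 2 * (R : ℝ) + 1 := by exact_mod_cast h5
      rw [h6]
      have h7 : (R : ℝ) ≤ X ^ σ := Int.floor_le _
      linarith
    calc (B.card : ℝ) ≤ ((((R + 1 - -R).toNat) ^ n : ℕ) : ℝ) := by exact_mod_cast h3
      _ = (((R + 1 - -R).toNat : ℕ) : ℝ) ^ n := by push_cast; ring
      _ ≤ (3 * X ^ σ) ^ n := pow_le_pow_left₀ (Nat.cast_nonneg _) h4 n
      _ = 3 ^ n * X ^ (n * σ) := by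
          rw [mul_pow, ← Real.rpow_natCast (X ^ σ) n, ← Real.rpow_mul hX0.le, mul_comm σ (n : ℝ)]
  have h8 : ((⌊X⌋₊ : ℕ) : ℝ) ^ ((1 : ℝ) / 2 + ε) ≤ X ^ ((1 : ℝ) / 2 + ε) :=
    Real.rpow_le_rpow (Nat.cast_nonneg _) hNX (by positivity)
  calc ({a | a ∈ Exc n σ ∧ ((∏ j, a j : ℕ) : ℝ) ≤ X}.ncard : ℝ)
      ≤ C * (B.card : ℝ) * ((⌊X⌋₊ : ℕ) : ℝ) ^ ((1 : ℝ) / 2 + ε) := h1.trans hcard
    _ ≤ C * (3 ^ n * X ^ (n * σ)) * X ^ ((1 : ℝ) / 2 + ε) := by gcongr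
    _ = C * 3 ^ n * X ^ (1 / 2 + n * σ + ε) := by
        have h9 : X ^ ((1 : ℝ) / 2 + n * σ + ε) = X ^ (n * σ) * X ^ ((1 : ℝ) / 2 + ε) := by
          rw [← Real.rpow_add hX0]
          congr 1
          ring
        rw [h9]
        ring

/-- The inequality holds for all tuples `a` of `n` positive integers with `|a_1 ⋯ a_n - F| ≤ F ^ θ` and all tuples `b` of
nonzero integers with `|b_j| ≤ (a_1 ⋯ a_n) ^ σ`. -/
def HoldsNear (n : ℕ) (σ θ F : ℝ) : Prop :=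
  ∀ a : Fin n → ℕ, (∀ i, 1 ≤ a i) → |((∏ i, a i : ℕ) : ℝ) - F| ≤ F ^ θ →
    ∀ b : Fin n → ℤ, (∀ i, b i ≠ 0) → (∀ i, |(b i : ℝ)| ≤ ((∏ j, a j : ℕ) : ℝ) ^ σ) →
      1 / 2 * (maxExp b : ℝ) / (H a b : ℝ) ≤ |P a b - 1|

/-- **Theorem.** Let `n ≥ 1`, `σ, θ ≥ 0`.
(1) Let `f` be a locally expanding family on `I` with exponent `τ ≥ 0`, and `θ < 1`. There is a set `E` of Hausdorff dimension
at most `(1/2 + n σ + τ) / (1 - θ)` such that for each `t ∈ I` outside `E`, for all large `k`,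
`|P(a, b) - 1| ≥ (1/2) max |b_j| / H(a, b)` for all tuples `a` of `n` positive integers with
`|a_1 ⋯ a_n - f_k(t)| ≤ f_k(t) ^ θ` and all tuples `b` of nonzero integers with `|b_j| ≤ (a_1 ⋯ a_n) ^ σ`.
(2) If `κ_k / log k → ∞` and `n σ + θ < 1/2`, the same holds with `t ^ κ_k` for almost all `t > 1`, and (3) with `k ^ t` for
almost all `t > 1 / (1/2 - n σ - θ)`. (4) `t ^ κ_k` is locally expanding on `(1, ∞)` with `τ = 0` if `κ_k / log k → ∞`, and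
`k ^ t` on `[a, ∞)` with `τ = 1 / a`. -/
theorem result :
    (∀ (n : ℕ) (f : ℕ → ℝ → ℝ) (I : Set ℝ) (τ θ σ : ℝ), 1 ≤ n → 0 ≤ τ → LocExpanding f I τ → 0 ≤ θ → θ < 1 → 0 ≤ σ →
      ∃ E : Set ℝ, dimH E ≤ ENNReal.ofReal ((1 / 2 + n * σ + τ) / (1 - θ)) ∧ ∀ t ∈ I, t ∉ E →
        ∃ k₀ : ℕ, ∀ k : ℕ, k₀ ≤ k → HoldsNear n σ θ (f k t)) ∧
    (∀ (n : ℕ) (κ : ℕ → ℝ), 1 ≤ n → Tendsto (fun k : ℕ => κ k / Real.log k) atTop atTop → ∀ σ θ : ℝ, 0 ≤ σ → 0 ≤ θ →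
      n * σ + θ < 1 / 2 → ∀ᵐ t : ℝ, 1 < t → ∃ k₀ : ℕ, ∀ k : ℕ, k₀ ≤ k → HoldsNear n σ θ (t ^ κ k)) ∧
    (∀ n : ℕ, 1 ≤ n → ∀ σ θ : ℝ, 0 ≤ σ → 0 ≤ θ → n * σ + θ < 1 / 2 → ∀ᵐ t : ℝ, 1 / (1 / 2 - n * σ - θ) < t →
      ∃ k₀ : ℕ, ∀ k : ℕ, k₀ ≤ k → HoldsNear n σ θ ((k : ℝ) ^ t)) ∧
    (∀ κ : ℕ → ℝ, Tendsto (fun n : ℕ => κ n / Real.log n) atTop atTop →
      LocExpanding (fun n t => t ^ κ n) (Set.Ioi 1) 0) ∧
    (∀ a : ℝ, 0 < a → LocExpanding (fun n t => (n : ℝ) ^ t) (Set.Ici a) (1 / a)) := by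
  have hnear : ∀ (n : ℕ) (σ θ F : ℝ), (∀ e ∈ Exc n σ, F ^ θ < |((∏ j, e j : ℕ) : ℝ) - F|) →
      HoldsNear n σ θ F := by
    intro n σ θ F h a ha hw b hb0 hb1
    by_contra hcon
    push Not at hcon
    exact absurd (h a ⟨ha, b, hb0, hb1, hcon⟩) (not_lt.2 hw)
  refine ⟨fun n f I τ θ σ hn hτ hf hθ hθ1 hσ => ?_, fun n κ hn hκ σ θ hσ hθ hθ1 => ?_,
    fun n hn σ θ hσ hθ hθ1 => ?_, fun κ hκ => Pool.Agent.X16.NW.loc_rpow κ hκ,
    fun a ha => Pool.Agent.X16.NW.loc_npow a ha⟩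
  · obtain ⟨E, h2, h3⟩ := Pool.Agent.X16.NW.windows_loc (Exc n σ) (fun a => ((∏ j, a j : ℕ) : ℝ)) hτ
      (s := 1 / 2 + n * σ) (by positivity) hθ hθ1 (count n hn σ hσ) I f hf
    refine ⟨E, h2, fun t ht htE => ?_⟩
    obtain ⟨k₀, hk⟩ := h3 t ht htE
    exact ⟨k₀, fun k hk1 => hnear n σ θ _ (hk k hk1)⟩
  · filter_upwards [Pool.Agent.X16.NW.ae_rpow (Exc n σ) (fun a => ((∏ j, a j : ℕ) : ℝ))
      (s := 1 / 2 + n * σ) (by positivity) (count n hn σ hσ) κ hκ θ hθ (by linarith)] with t h ht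
    obtain ⟨k₀, hk⟩ := h ht
    exact ⟨k₀, fun k hk1 => hnear n σ θ _ (hk k hk1)⟩
  · filter_upwards [Pool.Agent.X16.NW.ae_npow (Exc n σ) (fun a => ((∏ j, a j : ℕ) : ℝ))
      (s := 1 / 2 + n * σ) (by positivity) (count n hn σ hσ) θ hθ (by linarith)] with t h ht
    have e : (1 : ℝ) - (1 / 2 + n * σ) - θ = 1 / 2 - n * σ - θ := by ring
    rw [e] at h
    obtain ⟨k₀, hk⟩ := h ht
    exact ⟨k₀, fun k hk1 => hnear n σ θ _ (hk k hk1)⟩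

end Pool.Agent.Results.MP_e07dae_nt.RealPowers
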